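import Pool.Agent.H213.MSB.Pow

/-!
# Entrywise real powers: the exponential function

The library of this problem shows that the entrywise preservers of real-rootedness are, up to constants,
power functions `F(t) = t^α`; for non-integral `α` it is open whether they are preservers. We prove
that `F(t) = t^α`, `α ≥ 2` real, maps the exponential series, the limit of the polynomials
`(1 + x/n)^n`, to a function of the Laguerre-Polya class: `∑ x^k / (k!)^α` is a locally uniform limit of
real polynomials with only real zeros. More precisely `1 / (k!)^s` is a multiplier sequence for every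
real `s ≥ 1`: if `∑ a_k x^k` has only real zeros then `∑ a_k / (k!)^s x^k` has only real zeros.

Proof. Let `c_k = binom(n, k) x^k / (k!)^s`, so `k^(1+s) c_k = x (n - k + 1) c_(k-1)`. At a double zero
`x < 0` one has `∑ c_k = ∑ k c_k = 0`, and for `1 ≤ s ≤ 3` the sum
`∑∑ c_k c_l (k^(1+s) - l^(1+s)) (k - l) / (k + l)` is nonnegative by the integral representation
`k^(1+s) = C ∫ k⁴ / (k² + t) t^((s-3)/2) dt`, and it is also equal to
`x ∑∑ c_k c_l (2n + 1 + (2k + 1)(2l + 1)) / (k + l + 1) < 0`. So there are no double zeros; a deformation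
to the Laguerre polynomials and the theorem of Polya and Schur complete the proof for `s ≤ 3`.
-/

set_option autoImplicit false

open Polynomial Filter Topology

namespace Pool.Agent.Results.MP_3f3e0f_an.RealPowersOfExp

/-- All complex zeros of the real polynomial `p` are real (the zero polynomial is admitted). -/
def RealRooted (p : ℝ[X]) : Prop := p = 0 ∨ ∀ z : ℂ, aeval z p = 0 → z.im = 0

/-- `∑ F(a_k) x^k` for `F(t) = t^α` and `a_k = 1/k!`, the coefficients of `e^x` -/
noncomputable def powExp (α : ℝ) (z : ℂ) : ℂ :=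
  ∑' k : ℕ, (((1 / (k.factorial : ℝ)) ^ α : ℝ) : ℂ) * z ^ k

section proofs

open Pool.Agent.Helper771.MultSeq Pool.Agent.Q163.LP Pool.Agent.H213.MSB

lemma coef (s : ℝ) (k : ℕ) : 1 / (k.factorial : ℝ) ^ s / (k.factorial : ℝ) =
    (1 / (k.factorial : ℝ)) ^ (s + 1) := by
  have hk : (0:ℝ) < k.factorial := by exact_mod_cast k.factorial_pos
  rw [Real.div_rpow zero_le_one hk.le, Real.one_rpow, Real.rpow_add_one hk.ne', div_div]

lemma summable_aux {s : ℝ} (hs : 1 ≤ s) (R : ℝ) (hR : 0 < R) :
    Summable fun k : ℕ => 1 / (k.factorial : ℝ) ^ s / (k.factorial : ℝ) * R ^ k := by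
  have h1 := Real.summable_pow_div_factorial R
  refine Summable.of_nonneg_of_le (fun k => by positivity) (fun k => ?_) h1
  have h3 : (1 : ℝ) ≤ k.factorial := by exact_mod_cast Nat.succ_le_of_lt k.factorial_pos
  have h4 : (1:ℝ) ≤ (k.factorial : ℝ) ^ s := Real.one_le_rpow h3 (by linarith)
  have h5 : 1 / (k.factorial : ℝ) ^ s ≤ 1 := by
    rw [div_le_one (by positivity)]; exact h4
  calc 1 / (k.factorial : ℝ) ^ s / (k.factorial : ℝ) * R ^ k
      ≤ 1 / (k.factorial : ℝ) * R ^ k := by gcongr
    _ = R ^ k / (k.factorial : ℝ) := by ring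

end proofs

open Pool.Agent.Helper771.MultSeq Pool.Agent.Q163.LP Pool.Agent.H213.MSB in
/-- For every real `α ≥ 2`: (1) if the real polynomial `p = ∑ a_k x^k` is real-rooted, so is
`∑ a_k / (k!)^(α - 1) x^k`; (2) `∑ (1/k!)^α x^k` converges for all complex `x` and is the limit, uniformly
on compact subsets of `ℂ`, of real polynomials with only real zeros. -/
theorem result (α : ℝ) (hα : 2 ≤ α) :
    (∀ p : ℝ[X], RealRooted p →
      RealRooted (p.sum fun k a => monomial k (1 / (k.factorial : ℝ) ^ (α - 1) * a))) ∧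
    (∀ z : ℂ, HasSum (fun k : ℕ => (((1 / (k.factorial : ℝ)) ^ α : ℝ) : ℂ) * z ^ k) (powExp α z)) ∧
    ∃ P : ℕ → ℝ[X], (∀ n, ∀ z : ℂ, aeval z (P n) = 0 → z.im = 0) ∧
      ∀ K : Set ℂ, IsCompact K →
        TendstoUniformlyOn (fun n (z : ℂ) => aeval z (P n)) (powExp α) atTop K := by
  have hs : 1 ≤ α - 1 := by linarith
  have hms := ms_real hs
  refine ⟨fun p hp => hms p hp, ?_, ?_⟩
  · intro z
    apply Summable.hasSum
    apply Summable.of_norm_bounded (summable_aux hs (‖z‖ + 1) (by positivity))
    intro k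
    rw [norm_mul, norm_pow, Complex.norm_real, Real.norm_of_nonneg (by positivity), coef, sub_add_cancel]
    apply mul_le_mul_of_nonneg_left _ (by positivity)
    exact pow_le_pow_left₀ (norm_nonneg _) (by linarith) k
  · obtain ⟨P, hP1, hP2, hP3⟩ := lp_of_ms hms (fun k => by positivity) ⟨1, by simp⟩
      (fun R hR => summable_aux hs R hR)
    simp_rw [coef, sub_add_cancel] at hP3
    exact ⟨P, fun n z hz => (hP1 n z hz).1, fun K hK =>
      (tendstoLocallyUniformly_iff_forall_isCompact.1 hP3) K hK⟩

end Pool.Agent.Results.MP_3f3e0f_an.RealPowersOfExp
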